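import Mathlib

/-!
Steiner systems of even strength `2 s` and block size `2 s + 1`, and involutions with exactly one fixed point.
-/

set_option autoImplicit false

namespace Pool.Agent.H838S

/-- The members of `B` have `q` elements and every `r`-element set is contained in exactly one of them. -/
def IsSteiner {V : Type*} (q r : ℕ) (B : Finset (Finset V)) : Prop :=
  (∀ b ∈ B, b.card = q) ∧ ∀ T : Finset V, T.card = r → ∃! b, b ∈ B ∧ T ⊆ b

variable {V : Type*} [DecidableEq V]

omit [DecidableEq V] in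
theorem even_card_of_involution (b : Finset V) (τ : V → V) (h2 : ∀ x, τ (τ x) = x)
    (hb : ∀ x ∈ b, τ x ∈ b) (hf : ∀ x ∈ b, τ x ≠ x) : Even b.card := by
  have h := Finset.prod_involution (s := b) (f := fun _ => (-1 : ℤ)) (fun a _ => τ a)
    (by intros; norm_num) (fun a ha _ => hf a ha) (fun a ha => hb a ha) (fun a _ => h2 a)
  rw [Finset.prod_const] at h
  rcases Nat.even_or_odd b.card with he | ho
  · exact he
  · rw [ho.neg_one_pow] at h
    norm_num at h

theorem eq_of_inter {s : ℕ} {B : Finset (Finset V)} (hB : IsSteiner (2 * s + 1) (2 * s) B)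
    {b b' : Finset V} (hb : b ∈ B) (hb' : b' ∈ B) (h : 2 * s ≤ (b ∩ b').card) : b = b' := by
  obtain ⟨T, hT, hc⟩ := Finset.exists_subset_card_eq h
  obtain ⟨K, -, hK⟩ := hB.2 T hc
  have h1 := hK b ⟨hb, hT.trans Finset.inter_subset_left⟩
  have h2 := hK b' ⟨hb', hT.trans Finset.inter_subset_right⟩
  rw [h1, h2]

/-- A set of size `2 s + 1` invariant under an involutory automorphism with one fixed point is a block. -/
theorem forced {s : ℕ} {B : Finset (Finset V)} (hB : IsSteiner (2 * s + 1) (2 * s) B)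
    (τ : V → V) (hτ : ∀ b ∈ B, b.image τ ∈ B) (h2 : ∀ x, τ (τ x) = x) (f : V)
    (hf : τ f = f) (hu : ∀ x, τ x = x → x = f)
    {b : Finset V} (hc : b.card = 2 * s + 1) (hb : ∀ x ∈ b, τ x ∈ b) : b ∈ B := by
  have hfb : f ∈ b := by
    by_contra hfb
    have := even_card_of_involution b τ h2 hb (fun x hx he => hfb (hu x he ▸ hx))
    rw [hc] at this
    exact absurd this (by simp)
  have hTc : (b.erase f).card = 2 * s := by rw [Finset.card_erase_of_mem hfb, hc]; omega
  obtain ⟨K, ⟨hKB, hTK⟩, hKu⟩ := hB.2 (b.erase f) hTc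
  have hinj : Function.Injective τ := fun x y h => by rw [← h2 x, h, h2]
  have hKτ : K.image τ = K := by
    apply hKu
    refine ⟨hτ K hKB, ?_⟩
    intro x hx
    rw [Finset.mem_erase] at hx
    rw [Finset.mem_image]
    refine ⟨τ x, hTK ?_, h2 x⟩
    rw [Finset.mem_erase]
    refine ⟨fun h => hx.1 ?_, hb x hx.2⟩
    rw [← h2 x, h, hf]
  have hKc := hB.1 K hKB
  have hd : (K \ b.erase f).card = 1 := by
    rw [Finset.card_sdiff_of_subset hTK, hKc, hTc]; omega
  obtain ⟨e, he⟩ := Finset.card_eq_one.mp hd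
  have heK : e ∈ K \ b.erase f := by rw [he]; simp
  rw [Finset.mem_sdiff] at heK
  have hτe : τ e ∈ K \ b.erase f := by
    rw [Finset.mem_sdiff]
    refine ⟨by rw [← hKτ]; exact Finset.mem_image_of_mem _ heK.1, fun h => heK.2 ?_⟩
    rw [Finset.mem_erase] at h ⊢
    refine ⟨fun h' => h.1 (by rw [h', hf]), ?_⟩
    have := hb _ h.2
    rwa [h2] at this
  rw [he, Finset.mem_singleton] at hτe
  have hef : e = f := hu e hτe
  subst hef
  have : b ⊆ K := by
    intro x hx
    by_cases hxe : x = e
    · exact hxe ▸ heK.1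
    · exact hTK (Finset.mem_erase.mpr ⟨hxe, hx⟩)
  have := Finset.eq_of_subset_of_card_le this (by rw [hKc, hc])
  rwa [this]

end Pool.Agent.H838S
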