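import Pool.Agent.H838S.Main

set_option autoImplicit false

namespace Pool.Agent.H838S

/-- The number of points is odd. -/
theorem odd_card {V : Type*} [Fintype V] [DecidableEq V] {s : ℕ} (hs : 1 ≤ s)
    {B : Finset (Finset V)} (hB : IsSteiner (2 * s + 1) (2 * s) B)
    (hv : 2 * s + 1 < Fintype.card V) : Odd (Fintype.card V) := by
  obtain ⟨T, -, hT⟩ := Finset.exists_subset_card_eq
    (show 2 * s - 1 ≤ (Finset.univ : Finset V).card by rw [Finset.card_univ]; omega)
  have h1 : Finset.univ \ T = (B.filter (fun K => T ⊆ K)).biUnion (fun K => K \ T) := by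
    ext x
    simp only [Finset.mem_sdiff, Finset.mem_univ, true_and, Finset.mem_biUnion, Finset.mem_filter]
    constructor
    · intro hx
      obtain ⟨K, ⟨hK, hTK⟩, -⟩ := hB.2 (insert x T) (by
        rw [Finset.card_insert_of_notMem hx, hT]; omega)
      exact ⟨K, ⟨hK, (Finset.subset_insert _ _).trans hTK⟩, hTK (Finset.mem_insert_self _ _), hx⟩
    · rintro ⟨K, -, -, hx⟩
      exact hx
  have h2 : (Finset.univ \ T).card = (B.filter (fun K => T ⊆ K)).card * 2 := by
    rw [h1, Finset.card_biUnion]
    · rw [Finset.sum_const_nat]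
      intro K hK
      rw [Finset.mem_filter] at hK
      rw [Finset.card_sdiff_of_subset hK.2, hB.1 K hK.1, hT]; omega
    · intro K hK K' hK' hne
      simp only [Finset.coe_filter, Set.mem_ofPred_eq] at hK hK'
      show Disjoint (K \ T) (K' \ T)
      rw [Finset.disjoint_left]
      intro x hx hx'
      rw [Finset.mem_sdiff] at hx hx'
      apply hne
      obtain ⟨L, -, hL⟩ := hB.2 (insert x T) (by
        rw [Finset.card_insert_of_notMem hx.2, hT]; omega)
      rw [hL K ⟨hK.1, Finset.insert_subset hx.1 hK.2⟩,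
        hL K' ⟨hK'.1, Finset.insert_subset hx'.1 hK'.2⟩]
  rw [Finset.card_sdiff_of_subset (Finset.subset_univ _), Finset.card_univ, hT] at h2
  exact ⟨(B.filter (fun K => T ⊆ K)).card + s - 1, by omega⟩

/-- Abelian groups. -/
theorem group_version {G : Type*} [AddCommGroup G] [Fintype G] [DecidableEq G] {s : ℕ}
    (hs : 1 ≤ s) {B : Finset (Finset G)} (hB : IsSteiner (2 * s + 1) (2 * s) B)
    (hv : 2 * s + 1 < Fintype.card G) (hneg : ∀ b ∈ B, b.image (fun x => -x) ∈ B)
    (g : G) (hg : ∀ b ∈ B, b.image (fun x => g + x) ∈ B) : (2 * s + 1) • g = 0 := by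
  have hodd := odd_card hs hB hv
  have hpow : ∀ (k : ℕ) (x : G), ((Equiv.addLeft g) ^ k) x = k • g + x := by
    intro k
    induction k with
    | zero => intro x; simp
    | succ k ih =>
      intro x
      rw [pow_succ', Equiv.Perm.mul_apply, ih, Equiv.coe_addLeft, succ_nsmul', add_assoc]
  have D : Dihedral (addOrderOf g) (Equiv.addLeft g) (Equiv.neg G) 0 := by
    refine ⟨addOrderOf_pos g, ?_, ?_, ?_, ?_, ?_, ?_⟩
    · ext x
      rw [hpow, addOrderOf_nsmul_eq_zero, zero_add]; rfl
    · intro x k hk hkm h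
      rw [hpow] at h
      have h0 : k • g = 0 := by simpa using h
      exact absurd (Nat.le_of_dvd hk (addOrderOf_dvd_of_nsmul_eq_zero h0)) (by omega)
    · intro x; simp
    · intro x
      rw [Equiv.Perm.inv_def, Equiv.addLeft_symm]
      simp [add_comm]
    · simp
    · intro x hx
      have h2 : 2 • x = 0 := by
        have h3 : -x = x := by simpa using hx
        rw [two_nsmul]
        nth_rewrite 1 [← h3]
        simp
      have hd1 := addOrderOf_dvd_of_nsmul_eq_zero h2
      have hd2 : addOrderOf x ∣ Fintype.card G := addOrderOf_dvd_card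
      have hco : Nat.Coprime 2 (Fintype.card G) := by
        rw [Nat.coprime_two_left]; exact hodd
      have h1 : addOrderOf x = 1 := Nat.eq_one_of_dvd_coprimes hco hd1 hd2
      exact AddMonoid.addOrderOf_eq_one_iff.mp h1
  have := main hB hv D (by simpa using hg) (by simpa using hneg)
  exact addOrderOf_dvd_iff_nsmul_eq_zero.mp this

/-- The integers modulo `n`. -/
theorem cyclic_version {n s : ℕ} (hs : 1 ≤ s) (hn : 2 * s + 1 < n) {B : Finset (Finset (ZMod n))}
    (hB : IsSteiner (2 * s + 1) (2 * s) B) (hneg : ∀ b ∈ B, b.image (fun x => -x) ∈ B)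
    (hg : ∀ b ∈ B, b.image (fun x => 1 + x) ∈ B) : False := by
  have : NeZero n := ⟨by omega⟩
  have h := group_version hs hB (by rw [ZMod.card]; exact hn) hneg 1 hg
  rw [nsmul_one, ZMod.natCast_eq_zero_iff] at h
  exact absurd (Nat.le_of_dvd (by omega) h) (by omega)

/-- Finite fields. -/
theorem field_version {F : Type*} [Field F] [Fintype F] [DecidableEq F] {s : ℕ} (hs : 1 ≤ s)
    (hq : Fintype.card F % 4 = 1) (hn : 2 * s + 1 < Fintype.card F) {B : Finset (Finset F)}
    (hB : IsSteiner (2 * s + 1) (2 * s) B)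
    (hinv : ∀ a c : F, a ≠ 0 → ∀ b ∈ B, b.image (fun x => a ^ 2 * x + c) ∈ B) :
    ringChar F ∣ 2 * s + 1 := by
  obtain ⟨r, hr⟩ := (FiniteField.isSquare_neg_one_iff (F := F)).mpr (by omega)
  have hr0 : r ≠ 0 := by
    rintro rfl
    simp at hr
  have hneg : ∀ b ∈ B, b.image (fun x => -x) ∈ B := by
    intro b hb
    have := hinv r 0 hr0 b hb
    rw [pow_two, ← hr] at this
    simpa using this
  have hg : ∀ b ∈ B, b.image (fun x => (1 : F) + x) ∈ B := by
    intro b hb
    have := hinv 1 1 one_ne_zero b hb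
    simpa [add_comm] using this
  have h := group_version hs hB hn hneg 1 hg
  rw [nsmul_one] at h
  exact (ringChar.spec F _).mp h

/-- The projective line. -/
theorem line_version {F : Type*} [Field F] [Fintype F] [DecidableEq F] {s : ℕ} (hs : 1 ≤ s)
    (hq : Fintype.card F % 4 = 1) (hn : 2 * s + 1 < Fintype.card F)
    {B : Finset (Finset (Option F))} (hB : IsSteiner (2 * s + 2) (2 * s + 1) B)
    (hinv : ∀ a c : F, a ≠ 0 → ∀ b ∈ B, b.image (Option.map (fun x => a ^ 2 * x + c)) ∈ B) :
    ringChar F ∣ 2 * s + 1 := by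
  set B' : Finset (Finset F) := Finset.univ.filter (fun b => Finset.insertNone b ∈ B) with hB'
  have hmem : ∀ b, b ∈ B' ↔ Finset.insertNone b ∈ B := by intro b; simp [hB']
  have hback : ∀ K ∈ B, none ∈ K → Finset.insertNone (Finset.eraseNone K) = K := by
    intro K _ h
    rw [Finset.insertNone_eraseNone, Finset.insert_eq_self]
    exact h
  refine field_version hs hq hn (B := B') ⟨?_, ?_⟩ ?_
  · intro b hb
    have := hB.1 _ ((hmem b).mp hb)
    rw [Finset.card_insertNone] at this
    omega
  · intro T hT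
    obtain ⟨K, ⟨hK, hTK⟩, hu⟩ := hB.2 (Finset.insertNone T) (by rw [Finset.card_insertNone, hT])
    have hnK : none ∈ K := hTK (by simp)
    have hsub : ∀ b : Finset F, T ⊆ b ↔ Finset.insertNone T ⊆ Finset.insertNone b := by
      intro b
      exact (OrderEmbedding.le_iff_le Finset.insertNone).symm
    refine ⟨Finset.eraseNone K, ⟨?_, ?_⟩, ?_⟩
    · show Finset.eraseNone K ∈ B'
      rw [hmem, hback K hK hnK]; exact hK
    · show T ⊆ Finset.eraseNone K
      rw [hsub, hback K hK hnK]; exact hTK
    · rintro b ⟨hb, hTb⟩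
      have h1 := hu (Finset.insertNone b) ⟨(hmem b).mp hb, (hsub b).mp hTb⟩
      rw [← h1, Finset.eraseNone_insertNone]
  · intro a c ha b hb
    rw [hmem] at hb ⊢
    have h1 := hinv a c ha _ hb
    convert h1 using 1
    ext x
    cases x with
    | none => simp
    | some x => simp

end Pool.Agent.H838S
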