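import Pool.Agent.H838S.Cor

set_option autoImplicit false

namespace Pool.Agent.H838S

/-- The version for Steiner systems `S(n, 2s+1+j, 2s+j)` with `j` fixed points. -/
theorem derived_version {V : Type*} [Fintype V] [DecidableEq V] {s m : ℕ} {B : Finset (Finset V)}
    {J : Finset V} {ρ σ : Equiv.Perm V}
    (hB : IsSteiner (2 * s + 1 + J.card) (2 * s + J.card) B)
    (hv : 2 * s + 1 + J.card < Fintype.card V)
    (hρ : ∀ b ∈ B, b.image ρ ∈ B) (hσ : ∀ b ∈ B, b.image σ ∈ B)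
    (hρJ : ∀ x ∈ J, ρ x = x) (hσJ : ∀ x ∈ J, σ x = x)
    (hm : 0 < m) (hpow : ρ ^ m = 1) (hsemi : ∀ x, x ∉ J → ∀ k : ℕ, 0 < k → k < m → (ρ ^ k) x ≠ x)
    (hsq : ∀ x, σ (σ x) = x) (hrel : ∀ x, σ (ρ (σ x)) = ρ⁻¹ x)
    (hfix : ∃! x, x ∉ J ∧ σ x = x) : m ∣ 2 * s + 1 := by
  obtain ⟨c, ⟨hcJ, hc⟩, hu⟩ := hfix
  have hρ' : ∀ x, ρ x ∉ J ↔ x ∉ J := by
    intro x
    refine not_congr ⟨fun h => ?_, fun h => by rw [hρJ x h]; exact h⟩
    have := hρJ _ h
    rw [ρ.injective this] at h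
    exact h
  have hσ' : ∀ x, σ x ∉ J ↔ x ∉ J := by
    intro x
    refine not_congr ⟨fun h => ?_, fun h => by rw [hσJ x h]; exact h⟩
    have := hσJ _ h
    rw [hsq] at this
    rw [← this] at h
    exact h
  let ι : {x // x ∉ J} ↪ V := Function.Embedding.subtype _
  let ρ' : Equiv.Perm {x // x ∉ J} := ρ.subtypePerm hρ'
  let σ' : Equiv.Perm {x // x ∉ J} := σ.subtypePerm hσ'
  let B' : Finset (Finset {x // x ∉ J}) := Finset.univ.filter (fun b => b.map ι ∪ J ∈ B)
  have hmem : ∀ b, b ∈ B' ↔ b.map ι ∪ J ∈ B := by intro b; simp [B']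
  have hdisj : ∀ b : Finset {x // x ∉ J}, Disjoint (b.map ι) J := by
    intro b
    rw [Finset.disjoint_left]
    intro x hx
    rw [Finset.mem_map] at hx
    obtain ⟨y, -, rfl⟩ := hx
    exact y.2
  have hcard : ∀ b : Finset {x // x ∉ J}, (b.map ι ∪ J).card = b.card + J.card := by
    intro b
    rw [Finset.card_union_of_disjoint (hdisj b), Finset.card_map]
  have hback : ∀ K : Finset V, J ⊆ K → (K.subtype (fun x => x ∉ J)).map ι ∪ J = K := by
    intro K hK
    ext x
    simp only [Finset.mem_union, Finset.mem_map, Finset.mem_subtype, ι,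
      Function.Embedding.subtype_apply, Subtype.exists, exists_and_right, exists_eq_right]
    constructor
    · rintro (⟨_, hx⟩ | hx)
      · exact hx
      · exact hK hx
    · intro hx
      by_cases hxJ : x ∈ J
      · exact Or.inr hxJ
      · exact Or.inl ⟨hxJ, hx⟩
  have hsub : ∀ T b : Finset {x // x ∉ J}, T.map ι ∪ J ⊆ b.map ι ∪ J ↔ T ⊆ b := by
    intro T b
    constructor
    · intro h x hx
      have h1 : ι x ∈ b.map ι ∪ J := h (Finset.mem_union_left _ (Finset.mem_map_of_mem _ hx))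
      rw [Finset.mem_union] at h1
      rcases h1 with h1 | h1
      · rwa [Finset.mem_map' ι] at h1
      · exact absurd h1 x.2
    · intro h
      exact Finset.union_subset_union (Finset.map_subset_map.mpr h) le_rfl
  have hinj : ∀ T b : Finset {x // x ∉ J}, T.map ι ∪ J = b.map ι ∪ J → T = b := by
    intro T b h
    exact Finset.Subset.antisymm ((hsub _ _).mp h.le) ((hsub _ _).mp h.ge)
  have hB' : IsSteiner (2 * s + 1) (2 * s) B' := by
    refine ⟨?_, ?_⟩
    · intro b hb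
      have := hB.1 _ ((hmem b).mp hb)
      rw [hcard] at this
      omega
    · intro T hT
      obtain ⟨K, ⟨hK, hTK⟩, hKu⟩ := hB.2 (T.map ι ∪ J) (by rw [hcard, hT])
      have hJK : J ⊆ K := Finset.subset_union_right.trans hTK
      refine ⟨K.subtype (fun x => x ∉ J), ⟨?_, ?_⟩, ?_⟩
      · show K.subtype (fun x => x ∉ J) ∈ B'
        rw [hmem, hback K hJK]; exact hK
      · show T ⊆ K.subtype (fun x => x ∉ J)
        rw [← hsub, hback K hJK]; exact hTK
      · rintro b ⟨hb, hTb⟩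
        apply hinj
        rw [hback K hJK]
        exact hKu _ ⟨(hmem b).mp hb, (hsub _ _).mpr hTb⟩
  have himg : ∀ (g : Equiv.Perm V) (hg : ∀ x, g x ∉ J ↔ x ∉ J), (∀ x ∈ J, g x = x) →
      (∀ b ∈ B, b.image g ∈ B) → ∀ b ∈ B', b.image (g.subtypePerm hg) ∈ B' := by
    intro g hg hgJ hgB b hb
    rw [hmem] at hb ⊢
    have h1 := hgB _ hb
    rw [Finset.image_union] at h1
    have h2 : J.image g = J := by
      ext x
      rw [Finset.mem_image]
      constructor
      · rintro ⟨y, hy, rfl⟩; rw [hgJ y hy]; exact hy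
      · intro hx; exact ⟨x, hx, hgJ x hx⟩
    have h3 : (b.map ι).image g = (b.image (g.subtypePerm hg)).map ι := by
      ext x
      simp only [Finset.mem_image, Finset.mem_map]
      constructor
      · rintro ⟨_, ⟨y, hy, rfl⟩, rfl⟩
        exact ⟨g.subtypePerm hg y, ⟨y, hy, rfl⟩, rfl⟩
      · rintro ⟨_, ⟨y, hy, rfl⟩, rfl⟩
        exact ⟨ι y, ⟨y, hy, rfl⟩, rfl⟩
    rwa [h2, h3] at h1
  have hpow' : ∀ (k : ℕ) (x : {x // x ∉ J}), (((ρ' ^ k) x : {x // x ∉ J}) : V) = (ρ ^ k) x := by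
    intro k
    induction k with
    | zero => intro x; rfl
    | succ k ih =>
      intro x
      rw [pow_succ', pow_succ', Equiv.Perm.mul_apply, Equiv.Perm.mul_apply, ← ih]
      rfl
  have D : Dihedral m ρ' σ' ⟨c, hcJ⟩ := by
    refine ⟨hm, ?_, ?_, ?_, ?_, ?_, ?_⟩
    · ext x
      rw [hpow', hpow]; rfl
    · intro x k hk hkm h
      exact hsemi x.1 x.2 k hk hkm (by rw [← hpow', h])
    · intro x
      exact Subtype.ext (hsq x.1)
    · intro x
      rw [Equiv.Perm.inv_def, eq_comm, Equiv.symm_apply_eq]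
      apply Subtype.ext
      show x.1 = ρ (σ (ρ (σ x.1)))
      rw [hrel]; simp
    · exact Subtype.ext hc
    · intro x hx
      exact Subtype.ext (hu x.1 ⟨x.2, congrArg Subtype.val hx⟩)
  refine main hB' ?_ D (himg ρ hρ' hρJ hρ) (himg σ hσ' hσJ hσ)
  rw [Fintype.card_subtype_compl, Fintype.card_coe]
  omega

end Pool.Agent.H838S
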