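import Pool.Agent.H838S.Base

set_option autoImplicit false

namespace Pool.Agent.H838S

variable {V : Type*} [DecidableEq V]

/-- A dihedral group of order `2 m` with semiregular rotations, whose reflections have one fixed point. -/
structure Dihedral (m : ℕ) (ρ σ : Equiv.Perm V) (c : V) : Prop where
  pos : 0 < m
  pow : ρ ^ m = 1
  semi : ∀ (x : V) (k : ℕ), 0 < k → k < m → (ρ ^ k) x ≠ x
  sq : ∀ x, σ (σ x) = x
  rel : ∀ x, σ (ρ (σ x)) = ρ⁻¹ x
  fix : σ c = c
  uniq : ∀ x, σ x = x → x = c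

namespace Dihedral

variable {m : ℕ} {ρ σ : Equiv.Perm V} {c : V}

omit [DecidableEq V] in
theorem comm (D : Dihedral m ρ σ c) (i : ℤ) (x : V) : σ ((ρ ^ i) x) = (ρ ^ (-i)) (σ x) := by
  have h1 : σ⁻¹ = σ := by
    ext y
    rw [Equiv.Perm.inv_def, Equiv.symm_apply_eq, D.sq]
  have h2 : σ * ρ * σ⁻¹ = ρ⁻¹ := by
    rw [h1]; ext y; simpa using D.rel y
  have h3 : σ * ρ ^ i * σ⁻¹ = ρ ^ (-i) := by
    rw [← conj_zpow, h2, inv_zpow, zpow_neg]
  have h4 := congrArg (fun g : Equiv.Perm V => g (σ x)) h3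
  simpa [h1, D.sq] using h4

omit [DecidableEq V] in
theorem add (i j : ℤ) (x : V) : (ρ ^ i) ((ρ ^ j) x) = (ρ ^ (i + j)) x := by
  rw [zpow_add]; rfl

omit [DecidableEq V] in
theorem dvd (D : Dihedral m ρ σ c) {i j : ℤ} {x : V} (h : (ρ ^ i) x = (ρ ^ j) x) :
    (m : ℤ) ∣ i - j := by
  have h1 : (ρ ^ (i - j)) x = x := by
    have : (ρ ^ (-j)) ((ρ ^ i) x) = (ρ ^ (-j)) ((ρ ^ j) x) := by rw [h]
    rw [add, add] at this
    simpa [add_comm, sub_eq_add_neg] using this
  have hm : (0 : ℤ) < m := by exact_mod_cast D.pos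
  have h2 : (ρ ^ ((i - j) % (m : ℤ))) x = x := by
    have h3 : ρ ^ ((m : ℤ) * ((i - j) / m)) = 1 := by
      rw [zpow_mul, zpow_natCast, D.pow, one_zpow]
    have h4 : (ρ ^ ((i - j) % (m : ℤ) + (m : ℤ) * ((i - j) / m))) x = x := by
      rw [Int.emod_add_mul_ediv]; exact h1
    rw [zpow_add, h3, mul_one] at h4
    exact h4
  obtain ⟨k, hk⟩ := Int.eq_ofNat_of_zero_le (Int.emod_nonneg (i - j) hm.ne')
  have hk2 : k < m := by
    have := Int.emod_lt_of_pos (i - j) hm
    rw [hk] at this; exact_mod_cast this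
  rw [hk, zpow_natCast] at h2
  rcases Nat.eq_zero_or_pos k with h0 | h0
  · subst h0
    exact Int.dvd_of_emod_eq_zero (by simpa using hk)
  · exact absurd h2 (D.semi x k h0 hk2)

omit [DecidableEq V] in
theorem eq_of_dvd (D : Dihedral m ρ σ c) {i j : ℤ} (x : V) (h : (m : ℤ) ∣ i - j) :
    (ρ ^ i) x = (ρ ^ j) x := by
  obtain ⟨k, hk⟩ := h
  have : i = j + m * k := by linarith
  rw [this, zpow_add, zpow_mul, zpow_natCast, D.pow, one_zpow, mul_one]

omit [DecidableEq V] in
/-- `m` is odd. -/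
theorem odd (D : Dihedral m ρ σ c) : Odd m := by
  rcases Nat.even_or_odd m with he | ho
  · exfalso
    obtain ⟨k, hk⟩ := he
    have h1 : σ ((ρ ^ (k : ℤ)) c) = (ρ ^ (k : ℤ)) c := by
      rw [D.comm, D.fix]
      apply D.eq_of_dvd
      exact ⟨-1, by rw [hk]; push_cast; ring⟩
    have h2 := D.uniq _ h1
    rw [zpow_natCast] at h2
    have := D.pos
    exact D.semi c k (by omega) (by omega) h2
  · exact ho

omit [DecidableEq V] in
/-- The reflection `ρ σ` and its fixed point. -/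
theorem second (D : Dihedral m ρ σ c) {k : ℕ} (hk : 2 * k = m + 1) (x : V) :
    ρ (σ x) = x ↔ x = (ρ ^ (k : ℤ)) c := by
  have e1 : ∀ y, ρ y = (ρ ^ (1 : ℤ)) y := fun y => by simp
  constructor
  · intro h
    have h1 : σ ((ρ ^ (-(k : ℤ))) x) = (ρ ^ (-(k : ℤ))) x := by
      rw [D.comm]
      have h2 : σ x = (ρ ^ (-1 : ℤ)) x := by
        conv_rhs => rw [← h, e1, add]
        simp
      rw [h2, add]
      apply D.eq_of_dvd
      exact ⟨1, by have : (2 : ℤ) * k = m + 1 := by exact_mod_cast hk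
                   linarith⟩
    have h3 := D.uniq _ h1
    rw [← h3, add]; simp
  · rintro rfl
    rw [D.comm, D.fix, e1, add]
    apply D.eq_of_dvd
    exact ⟨-1, by have : (2 : ℤ) * k = m + 1 := by exact_mod_cast hk
                  linarith⟩

omit [DecidableEq V] in
theorem second_sq (D : Dihedral m ρ σ c) (x : V) : ρ (σ (ρ (σ x))) = x := by
  rw [D.rel]; simp

omit [DecidableEq V] in
/-- A point outside the orbit of `c` is not mapped to its own rotation orbit by `σ`. -/
theorem sep (D : Dihedral m ρ σ c) {y : V} (hy : ∀ i : ℤ, (ρ ^ i) c ≠ y) (i j : ℤ) :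
    (ρ ^ i) y ≠ σ ((ρ ^ j) y) := by
  intro h
  obtain ⟨k, hk⟩ := D.odd
  rw [D.comm] at h
  have h1 : σ y = (ρ ^ (i + j)) y := by
    have : (ρ ^ j) ((ρ ^ i) y) = (ρ ^ j) ((ρ ^ (-j)) (σ y)) := by rw [h]
    rw [add, add] at this
    simpa [add_comm] using this.symm
  -- n = (k + 1) * (i + j)
  have h2 : σ ((ρ ^ (((k : ℤ) + 1) * (i + j))) y) = (ρ ^ (((k : ℤ) + 1) * (i + j))) y := by
    rw [D.comm, h1, add]
    apply D.eq_of_dvd
    exact ⟨-(i + j), by rw [hk]; push_cast; ring⟩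
  have h3 := D.uniq _ h2
  apply hy (-(((k : ℤ) + 1) * (i + j)))
  rw [← h3, add]; simp

/-- Unions of orbits of the dihedral group of every size `m + 2 m q ≤ |V|`. -/
theorem full [Fintype V] (D : Dihedral m ρ σ c) (q : ℕ) (hq : m + 2 * m * q ≤ Fintype.card V) :
    ∃ F : Finset V, F.card = m + 2 * m * q ∧ (∀ i : ℤ, (ρ ^ i) c ∈ F) ∧
      (∀ x ∈ F, ∀ i : ℤ, (ρ ^ i) x ∈ F) ∧ ∀ x ∈ F, σ x ∈ F := by
  have orb : ∀ x : V, ∃ O : Finset V, O.card = m ∧ ∀ y, y ∈ O ↔ ∃ i : ℤ, (ρ ^ i) x = y := by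
    intro x
    refine ⟨(Finset.range m).image (fun i : ℕ => (ρ ^ (i : ℤ)) x), ?_, ?_⟩
    · rw [Finset.card_image_of_injOn, Finset.card_range]
      intro i hi j hj h
      have := D.dvd h
      simp only [Finset.coe_range, Set.mem_Iio] at hi hj
      have h2 := Int.eq_zero_of_abs_lt_dvd this (by rw [abs_lt]; constructor <;> linarith)
      have : (i : ℤ) = j := by linarith
      exact_mod_cast this
    · intro y
      simp only [Finset.mem_image, Finset.mem_range]
      constructor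
      · rintro ⟨i, -, hi⟩; exact ⟨i, hi⟩
      · rintro ⟨i, hi⟩
        have hm : (0 : ℤ) < m := by exact_mod_cast D.pos
        obtain ⟨k, hk⟩ := Int.eq_ofNat_of_zero_le (Int.emod_nonneg i hm.ne')
        refine ⟨k, ?_, ?_⟩
        · have := Int.emod_lt_of_pos i hm
          rw [hk] at this; exact_mod_cast this
        · rw [← hi]
          apply D.eq_of_dvd
          have h5 := Int.emod_add_mul_ediv i m
          exact ⟨-(i / m), by rw [← hk]; linarith⟩
  induction q with
  | zero =>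
    obtain ⟨O, hO, hOm⟩ := orb c
    refine ⟨O, by simpa using hO, fun i => (hOm _).mpr ⟨i, rfl⟩, ?_, ?_⟩
    · intro x hx i
      obtain ⟨j, hj⟩ := (hOm x).mp hx
      exact (hOm _).mpr ⟨i + j, by rw [← hj, add]⟩
    · intro x hx
      obtain ⟨j, hj⟩ := (hOm x).mp hx
      exact (hOm _).mpr ⟨-j, by rw [← hj, D.comm, D.fix]⟩
  | succ q ih =>
    have hle : m + 2 * m * q + 2 * m ≤ Fintype.card V := by linarith
    obtain ⟨F, hF, hFc, hFρ, hFσ⟩ := ih (by omega)
    have hne : ∃ y, y ∉ F := by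
      by_contra hall
      push Not at hall
      have : F = Finset.univ := Finset.eq_univ_iff_forall.mpr hall
      rw [this, Finset.card_univ] at hF
      have := D.pos
      omega
    obtain ⟨y, hy⟩ := hne
    have hyc : ∀ i : ℤ, (ρ ^ i) c ≠ y := fun i h => hy (h ▸ hFc i)
    obtain ⟨O, hO, hOm⟩ := orb y
    obtain ⟨O', hO', hOm'⟩ := orb (σ y)
    have back : ∀ x, (∃ i : ℤ, (ρ ^ i) x ∈ F) → x ∈ F := by
      rintro x ⟨i, hi⟩
      have := hFρ _ hi (-i)
      rw [add] at this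
      simpa using this
    have hσy : σ y ∉ F := fun h => hy (by have := hFσ _ h; rwa [D.sq] at this)
    have d1 : Disjoint F O := by
      rw [Finset.disjoint_left]
      intro x hx hxO
      obtain ⟨i, hi⟩ := (hOm x).mp hxO
      exact hy (back y ⟨i, hi ▸ hx⟩)
    have d2 : Disjoint F O' := by
      rw [Finset.disjoint_left]
      intro x hx hxO
      obtain ⟨i, hi⟩ := (hOm' x).mp hxO
      exact hσy (back _ ⟨i, hi ▸ hx⟩)
    have d3 : Disjoint O O' := by
      rw [Finset.disjoint_left]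
      intro x hx hxO
      obtain ⟨i, hi⟩ := (hOm x).mp hx
      obtain ⟨j, hj⟩ := (hOm' x).mp hxO
      refine D.sep hyc i (-j) ?_
      rw [hi, D.comm, neg_neg, hj]
    refine ⟨F ∪ (O ∪ O'), ?_, ?_, ?_, ?_⟩
    · rw [Finset.card_union_of_disjoint (Finset.disjoint_union_right.mpr ⟨d1, d2⟩),
        Finset.card_union_of_disjoint d3, hF, hO, hO']
      ring
    · intro i
      exact Finset.mem_union_left _ (hFc i)
    · intro x hx i
      rw [Finset.mem_union, Finset.mem_union] at hx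
      rcases hx with hx | hx | hx
      · exact Finset.mem_union_left _ (hFρ x hx i)
      · obtain ⟨j, hj⟩ := (hOm x).mp hx
        exact Finset.mem_union_right _ (Finset.mem_union_left _
          ((hOm _).mpr ⟨i + j, by rw [← hj, add]⟩))
      · obtain ⟨j, hj⟩ := (hOm' x).mp hx
        exact Finset.mem_union_right _ (Finset.mem_union_right _
          ((hOm' _).mpr ⟨i + j, by rw [← hj, add]⟩))
    · intro x hx
      rw [Finset.mem_union, Finset.mem_union] at hx
      rcases hx with hx | hx | hx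
      · exact Finset.mem_union_left _ (hFσ x hx)
      · obtain ⟨j, hj⟩ := (hOm x).mp hx
        exact Finset.mem_union_right _ (Finset.mem_union_right _
          ((hOm' _).mpr ⟨-j, by rw [← hj, D.comm]⟩))
      · obtain ⟨j, hj⟩ := (hOm' x).mp hx
        exact Finset.mem_union_right _ (Finset.mem_union_left _
          ((hOm _).mpr ⟨-j, by rw [← hj, D.comm, D.sq]⟩))

end Dihedral

end Pool.Agent.H838S
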