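import Pool.Agent.H838S.Dihedral

set_option autoImplicit false

namespace Pool.Agent.H838S

variable {V : Type*} [DecidableEq V]

open Dihedral

theorem image_second {B : Finset (Finset V)} {ρ σ : Equiv.Perm V} (hρ : ∀ b ∈ B, b.image ρ ∈ B)
    (hσ : ∀ b ∈ B, b.image σ ∈ B) : ∀ b ∈ B, b.image (fun x => ρ (σ x)) ∈ B := by
  intro b hb
  have := hρ _ (hσ b hb)
  rwa [Finset.image_image] at this

/-- Small blocks: `2 s + 1 < m` is impossible. -/
theorem small {s m : ℕ} {B : Finset (Finset V)} {ρ σ : Equiv.Perm V} {c : V}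
    (hB : IsSteiner (2 * s + 1) (2 * s) B) (D : Dihedral m ρ σ c)
    (hρ : ∀ b ∈ B, b.image ρ ∈ B) (hσ : ∀ b ∈ B, b.image σ ∈ B) (hm : 2 * s + 1 < m) : False := by
  obtain ⟨k₀, hk₀⟩ := D.odd
  obtain ⟨k, hk⟩ : ∃ k : ℕ, 2 * k = m + 1 := ⟨k₀ + 1, by omega⟩
  have hinj : ∀ a e : ℤ, e - a < m → Set.InjOn (fun i : ℤ => (ρ ^ i) c) (Finset.Icc a e) := by
    intro a e hae i hi j hj h
    have h1 := D.dvd h
    rw [Finset.coe_Icc, Set.mem_Icc] at hi hj
    have := Int.eq_zero_of_abs_lt_dvd h1 (by rw [abs_lt]; constructor <;> linarith)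
    linarith
  set b := (Finset.Icc (-(s : ℤ)) s).image (fun i : ℤ => (ρ ^ i) c) with hb
  set t := (Finset.Icc (1 - (s : ℤ)) s).image (fun i : ℤ => (ρ ^ i) c) with ht
  have hbc : b.card = 2 * s + 1 := by
    rw [hb, Finset.card_image_of_injOn (hinj _ _ (by omega)), Int.card_Icc]; omega
  have htc : t.card = 2 * s := by
    rw [ht, Finset.card_image_of_injOn (hinj _ _ (by omega)), Int.card_Icc]; omega
  have hkb : (ρ ^ (k : ℤ)) c ∉ b := by
    intro h
    rw [hb, Finset.mem_image] at h
    obtain ⟨i, hi, h⟩ := h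
    rw [Finset.mem_Icc] at hi
    have h1 := D.dvd h
    have := Int.eq_zero_of_abs_lt_dvd h1 (by rw [abs_lt]; constructor <;> omega)
    omega
  have htb : t ⊆ b := by
    rw [ht, hb]
    apply Finset.image_subset_image
    apply Finset.Icc_subset_Icc_left; omega
  have hbB : b ∈ B := by
    refine forced hB σ hσ D.sq c D.fix D.uniq hbc ?_
    intro x hx
    rw [hb, Finset.mem_image] at hx ⊢
    obtain ⟨i, hi, rfl⟩ := hx
    rw [Finset.mem_Icc] at hi
    exact ⟨-i, by rw [Finset.mem_Icc]; omega, by rw [D.comm, D.fix]⟩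
  have hb'B : insert ((ρ ^ (k : ℤ)) c) t ∈ B := by
    refine forced hB _ (image_second hρ hσ) D.second_sq ((ρ ^ (k : ℤ)) c)
      ((D.second hk _).mpr rfl) (fun x hx => (D.second hk x).mp hx) ?_ ?_
    · rw [Finset.card_insert_of_notMem (fun h => hkb (htb h)), htc]
    · intro x hx
      rw [Finset.mem_insert] at hx ⊢
      rcases hx with rfl | hx
      · left; exact (D.second hk _).mpr rfl
      · right
        rw [ht, Finset.mem_image] at hx ⊢
        obtain ⟨i, hi, rfl⟩ := hx
        rw [Finset.mem_Icc] at hi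
        refine ⟨1 - i, by rw [Finset.mem_Icc]; omega, ?_⟩
        have e1 : ∀ y, ρ y = (ρ ^ (1 : ℤ)) y := fun y => by simp
        rw [D.comm, D.fix, e1, add]
        rfl
  have heq := eq_of_inter hB hbB hb'B (by
    rw [← htc]
    exact Finset.card_le_card (Finset.subset_inter htb (Finset.subset_insert _ _)))
  exact hkb (heq ▸ Finset.mem_insert_self _ _)

theorem main [Fintype V] {s m : ℕ} {B : Finset (Finset V)} {ρ σ : Equiv.Perm V} {c : V}
    (hB : IsSteiner (2 * s + 1) (2 * s) B) (hv : 2 * s + 1 < Fintype.card V)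
    (D : Dihedral m ρ σ c)
    (hρ : ∀ b ∈ B, b.image ρ ∈ B) (hσ : ∀ b ∈ B, b.image σ ∈ B) : m ∣ 2 * s + 1 := by
  by_contra hnd
  have hm := D.pos
  rcases lt_or_ge (2 * s + 1) m with hlt | hge
  · exact small hB D hρ hσ hlt
  obtain ⟨k₀, hk₀⟩ := D.odd
  obtain ⟨k, hk⟩ : ∃ k : ℕ, 2 * k = m + 1 := ⟨k₀ + 1, by omega⟩
  obtain ⟨N, hN⟩ : ∃ N, 2 * s + 1 = m + 2 * N := ⟨s - k₀, by omega⟩
  have hdm := Nat.div_add_mod N m
  set q := N / m with hq
  set l := N % m with hl
  have hlm : l < m := Nat.mod_lt _ hm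
  have hl0 : 0 < l := by
    rcases Nat.eq_zero_or_pos l with h0 | h0
    · exfalso
      apply hnd
      refine ⟨1 + 2 * q, ?_⟩
      rw [hN, ← hdm, h0]; ring
    · exact h0
  have hs : 2 * s + 1 = m + 2 * m * q + 2 * l := by rw [hN, ← hdm]; ring
  obtain ⟨F, hF, hFc, hFρ, hFσ⟩ := D.full q (by omega)
  have hne : ∃ y, y ∉ F := by
    by_contra hall
    push Not at hall
    have : F = Finset.univ := Finset.eq_univ_iff_forall.mpr hall
    rw [this, Finset.card_univ] at hF
    omega
  obtain ⟨y, hy⟩ := hne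
  have hyc : ∀ i : ℤ, (ρ ^ i) c ≠ y := fun i h => hy (h ▸ hFc i)
  have hyF : ∀ i : ℤ, (ρ ^ i) y ∉ F := by
    intro i h
    have := hFρ _ h (-i)
    rw [add] at this
    exact hy (by simpa using this)
  have hσF : ∀ x, σ x ∈ F → x ∈ F := fun x h => by have := hFσ _ h; rwa [D.sq] at this
  have hinj : Function.Injective (fun x => σ x) := σ.injective
  have hIc : ∀ n ≤ m, ((Finset.range n).image (fun i : ℕ => (ρ ^ (i : ℤ)) y)).card = n := by
    intro n hn
    rw [Finset.card_image_of_injOn, Finset.card_range]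
    intro i hi j hj h
    simp only [Finset.coe_range, Set.mem_Iio] at hi hj
    have := Int.eq_zero_of_abs_lt_dvd (D.dvd h) (by rw [abs_lt]; constructor <;> omega)
    omega
  -- the three pieces
  set P := (Finset.range l).image (fun i : ℕ => (ρ ^ (i : ℤ)) y) with hP
  set Q := (Finset.range l).image (fun i : ℕ => σ ((ρ ^ (i : ℤ)) y)) with hQ
  set Q' := (Finset.range l).image (fun i : ℕ => ρ (σ ((ρ ^ (i : ℤ)) y))) with hQ'
  set R := (Finset.range (l - 1)).image (fun i : ℕ => σ ((ρ ^ (i : ℤ)) y)) with hR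
  have hPc : P.card = l := hIc l hlm.le
  have hQc : Q.card = l := by
    have : Q = P.image (fun x => σ x) := by rw [hQ, hP, Finset.image_image]; rfl
    rw [this, Finset.card_image_of_injective _ hinj, hPc]
  have hQ'c : Q'.card = l := by
    have : Q' = P.image (fun x => ρ (σ x)) := by rw [hQ', hP, Finset.image_image]; rfl
    have hinj2 : Function.Injective (fun x => ρ (σ x)) := fun a b h =>
      σ.injective (ρ.injective h)
    rw [this, Finset.card_image_of_injective _ hinj2, hPc]
  have hRc : R.card = l - 1 := by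
    have : R = ((Finset.range (l - 1)).image (fun i : ℕ => (ρ ^ (i : ℤ)) y)).image
        (fun x => σ x) := by rw [hR, Finset.image_image]; rfl
    rw [this, Finset.card_image_of_injective _ hinj, hIc _ (by omega)]
  have hshift : ∀ i : ℤ, ρ (σ ((ρ ^ i) y)) = σ ((ρ ^ (i - 1)) y) := by
    intro i
    have e1 : ∀ y, ρ y = (ρ ^ (1 : ℤ)) y := fun y => by simp
    rw [D.comm, D.comm, e1, add]
    congr 2; ring
  have dFP : Disjoint F P := by
    rw [Finset.disjoint_right]
    intro x hx
    rw [hP, Finset.mem_image] at hx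
    obtain ⟨i, -, rfl⟩ := hx
    exact hyF i
  have dFQ : Disjoint F Q := by
    rw [Finset.disjoint_right]
    intro x hx
    rw [hQ, Finset.mem_image] at hx
    obtain ⟨i, -, rfl⟩ := hx
    exact fun h => hyF i (hσF _ h)
  have dFQ' : Disjoint F Q' := by
    rw [Finset.disjoint_right]
    intro x hx
    rw [hQ', Finset.mem_image] at hx
    obtain ⟨i, -, rfl⟩ := hx
    rw [hshift]
    exact fun h => hyF _ (hσF _ h)
  have dPQ : Disjoint P Q := by
    rw [Finset.disjoint_left]
    intro x hx hx'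
    rw [hP, Finset.mem_image] at hx
    rw [hQ, Finset.mem_image] at hx'
    obtain ⟨i, -, rfl⟩ := hx
    obtain ⟨j, -, h⟩ := hx'
    exact D.sep hyc _ _ h.symm
  have dPQ' : Disjoint P Q' := by
    rw [Finset.disjoint_left]
    intro x hx hx'
    rw [hP, Finset.mem_image] at hx
    rw [hQ', Finset.mem_image] at hx'
    obtain ⟨i, -, rfl⟩ := hx
    obtain ⟨j, -, h⟩ := hx'
    rw [hshift] at h
    exact D.sep hyc _ _ h.symm
  have hRQ : R ⊆ Q := by
    rw [hR, hQ]
    apply Finset.image_subset_image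
    intro i hi
    rw [Finset.mem_range] at hi ⊢; omega
  have hRQ' : R ⊆ Q' := by
    intro x hx
    rw [hR, Finset.mem_image] at hx
    obtain ⟨i, hi, rfl⟩ := hx
    rw [Finset.mem_range] at hi
    rw [hQ', Finset.mem_image]
    refine ⟨i + 1, by rw [Finset.mem_range]; omega, ?_⟩
    rw [hshift]; push_cast; rw [add_sub_cancel_right]
  have hbc : (F ∪ (P ∪ Q)).card = 2 * s + 1 := by
    rw [Finset.card_union_of_disjoint (Finset.disjoint_union_right.mpr ⟨dFP, dFQ⟩),
      Finset.card_union_of_disjoint dPQ, hF, hPc, hQc, hs]; ring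
  have hb'c : (F ∪ (P ∪ Q')).card = 2 * s + 1 := by
    rw [Finset.card_union_of_disjoint (Finset.disjoint_union_right.mpr ⟨dFP, dFQ'⟩),
      Finset.card_union_of_disjoint dPQ', hF, hPc, hQ'c, hs]; ring
  have hbB : F ∪ (P ∪ Q) ∈ B := by
    refine forced hB σ hσ D.sq c D.fix D.uniq hbc ?_
    intro x hx
    rw [Finset.mem_union, Finset.mem_union] at hx ⊢
    rcases hx with hx | hx | hx
    · exact Or.inl (hFσ x hx)
    · right; right
      rw [hP, Finset.mem_image] at hx
      obtain ⟨i, hi, rfl⟩ := hx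
      exact Finset.mem_image_of_mem _ hi
    · right; left
      rw [hQ, Finset.mem_image] at hx
      obtain ⟨i, hi, rfl⟩ := hx
      rw [D.sq]
      exact Finset.mem_image_of_mem _ hi
  have hb'B : F ∪ (P ∪ Q') ∈ B := by
    refine forced hB _ (image_second hρ hσ) D.second_sq ((ρ ^ (k : ℤ)) c)
      ((D.second hk _).mpr rfl) (fun x hx => (D.second hk x).mp hx) hb'c ?_
    intro x hx
    rw [Finset.mem_union, Finset.mem_union] at hx ⊢
    rcases hx with hx | hx | hx
    · left
      have := hFρ _ (hFσ x hx) 1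
      simpa using this
    · right; right
      rw [hP, Finset.mem_image] at hx
      obtain ⟨i, hi, rfl⟩ := hx
      rw [hQ', Finset.mem_image]
      exact ⟨i, hi, rfl⟩
    · right; left
      rw [hQ', Finset.mem_image] at hx
      obtain ⟨i, hi, rfl⟩ := hx
      rw [D.second_sq]
      exact Finset.mem_image_of_mem _ hi
  have hinter : 2 * s ≤ ((F ∪ (P ∪ Q)) ∩ (F ∪ (P ∪ Q'))).card := by
    have h1 : (F ∪ (P ∪ R)).card = 2 * s := by
      rw [Finset.card_union_of_disjoint (Finset.disjoint_union_right.mpr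
        ⟨dFP, Finset.disjoint_of_subset_right hRQ dFQ⟩),
        Finset.card_union_of_disjoint (Finset.disjoint_of_subset_right hRQ dPQ), hF, hPc, hRc]
      omega
    rw [← h1]
    apply Finset.card_le_card
    apply Finset.subset_inter
    · exact Finset.union_subset_union le_rfl (Finset.union_subset_union le_rfl hRQ)
    · exact Finset.union_subset_union le_rfl (Finset.union_subset_union le_rfl hRQ')
  have heq := eq_of_inter hB hbB hb'B hinter
  have hz : σ ((ρ ^ (((l - 1 : ℕ)) : ℤ)) y) ∈ F ∪ (P ∪ Q') := by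
    rw [← heq]
    apply Finset.mem_union_right
    apply Finset.mem_union_right
    rw [hQ, Finset.mem_image]
    exact ⟨l - 1, by rw [Finset.mem_range]; omega, rfl⟩
  rw [Finset.mem_union, Finset.mem_union] at hz
  rcases hz with hz | hz | hz
  · exact hyF _ (hσF _ hz)
  · rw [hP, Finset.mem_image] at hz
    obtain ⟨i, -, h⟩ := hz
    exact D.sep hyc _ _ h
  · rw [hQ', Finset.mem_image] at hz
    obtain ⟨i, hi, h⟩ := hz
    rw [Finset.mem_range] at hi
    rw [hshift] at h
    have h2 := D.dvd (σ.injective h)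
    have := Int.eq_zero_of_abs_lt_dvd h2 (by rw [abs_lt]; constructor <;> omega)
    omega

end Pool.Agent.H838S
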